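import Pool.Agent.W2helper38.GG.Gen
import Pool.Agent.Y221.PD.Imp
import Pool.Agent.TH466.QG.Strong

/-!
The conditions of the generalised Green-Griffiths-Lang conjecture for varieties with Zariski dense
entire curves, or with Zariski dense images of elliptic curves.
-/

set_option autoImplicit false
set_option linter.overlappingInstances false

namespace Pool.Agent.W2helper38.GG

open Pool.Agent.W602.GT
open Pool.Agent.TH466.QG (StronglyGeneral)
open Pool.Agent.Y221.BD (EntireCurve PseudoBrody)
open Pool.Agent.Y221.PD (PseudoPicard PseudoAbelian)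

theorem reduces (L : Type) [Field L] [Algebra ℂ L] (m : ℕ) (x : Fin (m + 1) → L) : Reduces x :=
  fun _ hu hmem _ _ _ _ hab => Pool.Agent.Y221.PD.curve_of_entire hu hmem hab

/-- It is enough to have dense entire curves on one projective model. -/
theorem entireDense_of {K : Type} [Field K] [Algebra ℂ K] {M : ℕ} {z : Fin (M + 1) → K}
    (hz0 : z ≠ 0) (hz : coords ℂ z = ⊤) (h : ¬ PseudoBrody z) : EntireDense K :=
  fun m x hx0 hx hB => h (brody_up (L := K) (K := K) hx0 hx (reduces K m x) hz0 hz hB)

/-- It is enough to have dense images of elliptic curves on one projective model. -/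
theorem ellipticDense_of {K : Type} [Field K] [Algebra ℂ K] {M : ℕ} {z : Fin (M + 1) → K}
    (hz0 : z ≠ 0) (hz : coords ℂ z = ⊤) (h : ¬ PseudoElliptic z) : EllipticDense K :=
  fun _ _ hx0 hx hB => h (elliptic_up (L := K) (K := K) hx0 hx hz0 hz hB)

theorem entire_of_elliptic {K : Type} [Field K] [Algebra ℂ K] (h : EllipticDense K) :
    EntireDense K :=
  fun m x hx0 hx hB => h m x hx0 hx (elliptic_of_brody (reduces K m x) hB)

variable {L : Type} [Field L] [Algebra ℂ L] {n M : ℕ} {x : Fin (M + 1) → L}

/-- varieties which are strongly of general type are of general type -/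
theorem general_of_strong (hn : 1 ≤ n) (hL : Algebra.trdeg ℂ L = n) (hx : x ≠ 0)
    (hgen : coords ℂ x = ⊤) (h : StronglyGeneral ℂ x) : GeneralType ℂ L n := by
  obtain ⟨R, -, hRx, h⟩ := h
  exact h L n x ⟨hx, hgen, fun G _ hG => hG⟩ hRx hn hL

/-- the consequences of the dichotomy, entire curves -/
theorem of_entire (hn : 1 ≤ n) (hL : Algebra.trdeg ℂ L = n)
    (hd : GeneralType ℂ L n ∨ EntireDense L) (hx : x ≠ 0) (hgen : coords ℂ x = ⊤) :
    (StronglyGeneral ℂ x → GeneralType ℂ L n) ∧ (PseudoPicard x → GeneralType ℂ L n) ∧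
      (PseudoBrody x → GeneralType ℂ L n) ∧ (PseudoAbelian x → GeneralType ℂ L n) := by
  have h1 : PseudoBrody x → GeneralType ℂ L n := fun h =>
    hd.resolve_right fun h' => h' M x hx hgen h
  exact ⟨general_of_strong hn hL hx hgen,
    fun h => h1 (Pool.Agent.Y221.PD.brody_of_picard h), h1,
    fun h => h1 (Pool.Agent.Y221.PD.brody_of_abelian h)⟩

/-- the consequences of the dichotomy, elliptic curves -/
theorem of_elliptic (hn : 1 ≤ n) (hL : Algebra.trdeg ℂ L = n)
    (hd : GeneralType ℂ L n ∨ EllipticDense L) (hx : x ≠ 0) (hgen : coords ℂ x = ⊤) :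
    (StronglyGeneral ℂ x → GeneralType ℂ L n) ∧ (PseudoPicard x → GeneralType ℂ L n) ∧
      (PseudoBrody x → GeneralType ℂ L n) ∧ (PseudoElliptic x → GeneralType ℂ L n) := by
  have h2 : PseudoElliptic x → GeneralType ℂ L n := fun h =>
    hd.resolve_right fun h' => h' M x hx hgen h
  have h1 : PseudoBrody x → GeneralType ℂ L n := fun h =>
    h2 (elliptic_of_brody (reduces L M x) h)
  exact ⟨general_of_strong hn hL hx hgen,
    fun h => h1 (Pool.Agent.Y221.PD.brody_of_picard h), h1, h2⟩

end Pool.Agent.W2helper38.GG
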