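import Pool.Agent.W2helper38.GG.Form
import Pool.Agent.Y221.BD.Defs

/-!
Zariski dense entire curves and generically finite maps.
-/

set_option autoImplicit false
set_option linter.overlappingInstances false

open MvPolynomial Topology

namespace Pool.Agent.W2helper38.GG

open Pool.Agent.W602.GT (val IsForm coords)
open Pool.Agent.Y221.BD (EntireCurve PseudoBrody)

/-- the ratios of the coordinates of an entire map can be made free of common zeros -/
def Reduces {m : ℕ} {L : Type} [Field L] [Algebra ℂ L] (x : Fin (m + 1) → L) : Prop :=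
  ∀ (u : Fin (m + 1) → ℂ → ℂ), (∀ i, Differentiable ℂ (u i)) →
    (∀ G : MvPolynomial (Fin (m + 1)) ℂ, IsForm G → val x G = 0 →
      ∀ t, eval (fun i => u i t) G = 0) →
    ∀ (i j : Fin (m + 1)) (a b : ℂ), u i a * u j b ≠ u j a * u i b →
      ∃ f : Fin (m + 1) → ℂ → ℂ, EntireCurve x f ∧
        ∀ t, (∃ k, u k t ≠ 0) → ∃ c : ℂ, c ≠ 0 ∧ ∀ i, u i t = c * f i t

/-- an algebraic relation over the function field `L`, with forms as coefficients -/
theorem exists_rel {L K : Type} [Field L] [Algebra ℂ L] [Field K] [Algebra ℂ K] [Algebra L K]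
    [IsScalarTower ℂ L K] {m : ℕ} {x : Fin (m + 1) → L} (hx : coords ℂ x = ⊤) {c : K}
    (hc : IsAlgebraic L c) :
    ∃ (d N : ℕ) (A : Fin (N + 1) → MvPolynomial (Fin (m + 1)) ℂ),
      (∀ k, (A k).IsHomogeneous d) ∧ val x (A (Fin.last N)) ≠ 0 ∧
      ∑ k : Fin (N + 1), algebraMap L K (val x (A k)) * c ^ (k : ℕ) = 0 := by
  obtain ⟨p, hp0, hp⟩ := hc
  obtain ⟨d, A, B, hA, -, hB0, h⟩ := exists_ratios (ι := Fin (p.natDegree + 1)) (z := x)
    (g := fun k => p.coeff k) (fun k => by rw [hx]; trivial)
  refine ⟨d, p.natDegree, A, hA, ?_, ?_⟩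
  · rw [← h (Fin.last _)]
    refine mul_ne_zero ?_ hB0
    simpa using hp0
  · have h1 : ∑ k : Fin (p.natDegree + 1), algebraMap L K (val x (A k)) * c ^ (k : ℕ) =
        algebraMap L K (val x B) * Polynomial.aeval c p := by
      rw [Polynomial.aeval_eq_sum_range, Finset.sum_range, Finset.mul_sum]
      refine Finset.sum_congr rfl fun k _ => ?_
      rw [← h k, map_mul, Algebra.smul_def]
      ring
    rw [h1, hp, mul_zero]

/-- **Generically finite maps.** If the entire curves on the variety with the generic point `x` are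
not Zariski dense then this holds for all varieties with generically finite maps to it. -/
theorem brody_up {L K : Type} [Field L] [Algebra ℂ L] [Field K] [Algebra ℂ K] [Algebra L K]
    [IsScalarTower ℂ L K] [Algebra.IsAlgebraic L K] {m M : ℕ} {x : Fin (m + 1) → L} (hx0 : x ≠ 0)
    (hx : coords ℂ x = ⊤) (hred : Reduces x) {z : Fin (M + 1) → K} (hz0 : z ≠ 0)
    (hz : coords ℂ z = ⊤) (h : PseudoBrody x) : PseudoBrody z := by
  classical
  obtain ⟨i0, hi0⟩ := Function.ne_iff.1 hx0
  obtain ⟨j0, hj0⟩ := Function.ne_iff.1 hz0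
  have hi0' : x i0 ≠ 0 := hi0
  have hj0' : z j0 ≠ 0 := hj0
  obtain ⟨D, P, b, hb, hP, hPb, hPi0⟩ := exists_map (K := K) hz hi0'
  choose d N A hA hA0 hAr using fun j => exists_rel (K := K) hx
    (Algebra.IsAlgebraic.isAlgebraic (R := L) (z j / z j0))
  obtain ⟨R, ⟨e, hR⟩, hRx, h⟩ := h
  -- the relations
  let H : Fin (M + 1) → MvPolynomial (Fin (M + 1)) ℂ := fun j =>
    ∑ k : Fin (N j + 1), bind₁ P (A j k) * (X j ^ (k : ℕ) * X j0 ^ (N j - k))
  have hHhom : ∀ j, (H j).IsHomogeneous (D * d j + N j) := by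
    intro j
    refine IsHomogeneous.sum _ _ _ fun k _ => ?_
    refine (hom_bind hP (hA j k)).mul ?_
    have h1 := ((isHomogeneous_X ℂ j).pow (k : ℕ)).mul ((isHomogeneous_X ℂ j0).pow (N j - k))
    have h2 : 1 * (k : ℕ) + 1 * (N j - k) = N j := by
      have := k.2
      omega
    rwa [h2] at h1
  have hHz : ∀ j, val z (H j) = 0 := by
    intro j
    simp only [H]
    rw [val_sum]
    have h1 : ∀ k : Fin (N j + 1), val z (bind₁ P (A j k) * (X j ^ (k : ℕ) * X j0 ^ (N j - k))) =
        b ^ d j * z j0 ^ N j * (algebraMap L K (val x (A j k)) * (z j / z j0) ^ (k : ℕ)) := by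
      intro k
      rw [val_mul, val_mul, val_pow, val_pow, val_X, val_X, val_map hPb (hA j k)]
      have h2 : z j0 ^ N j = z j0 ^ (N j - k) * z j0 ^ (k : ℕ) := by
        rw [← pow_add]
        congr 1
        have := k.2
        omega
      rw [h2, div_pow]
      field_simp
    rw [Finset.sum_congr rfl fun k _ => h1 k, ← Finset.mul_sum, hAr j, mul_zero]
  -- the bad form
  refine ⟨X j0 * P i0 * bind₁ P R * ∏ j, bind₁ P (A j (Fin.last (N j))),
    ⟨_, (((isHomogeneous_X ℂ j0).mul (hP i0)).mul (hom_bind hP hR)).mul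
      (IsHomogeneous.prod _ _ _ fun j _ => hom_bind hP (hA j (Fin.last (N j))))⟩, ?_, ?_⟩
  · rw [val_mul, val_mul, val_mul, val_X, val_prod, val_map hPb hR]
    refine mul_ne_zero (mul_ne_zero (mul_ne_zero hj0' hPi0) (mul_ne_zero (pow_ne_zero _ hb)
      ((map_ne_zero _).2 hRx))) (Finset.prod_ne_zero_iff.2 fun j _ => ?_)
    rw [val_map hPb (hA j _)]
    exact mul_ne_zero (pow_ne_zero _ hb) ((map_ne_zero _).2 (hA0 j))
  intro f hf t0
  by_contra hcon
  rw [map_mul, map_mul, map_mul, map_prod, eval_X] at hcon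
  have hcon1 := left_ne_zero_of_mul hcon
  have hAt : ∀ j, eval (fun i => f i t0) (bind₁ P (A j (Fin.last (N j)))) ≠ 0 := fun j =>
    Finset.prod_ne_zero_iff.1 (right_ne_zero_of_mul hcon) j (Finset.mem_univ j)
  have hRt : eval (fun i => f i t0) (bind₁ P R) ≠ 0 := right_ne_zero_of_mul hcon1
  have hft : f j0 t0 ≠ 0 := left_ne_zero_of_mul (left_ne_zero_of_mul hcon1)
  have hPt : eval (fun i => f i t0) (P i0) ≠ 0 := right_ne_zero_of_mul (left_ne_zero_of_mul hcon1)
  let u : Fin (m + 1) → ℂ → ℂ := fun i t => eval (fun l => f l t) (P i)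
  have hu : ∀ i, Differentiable ℂ (u i) := by
    intro i
    simp only [u]
    have h1 : (fun t => eval (fun l => f l t) (P i)) =
        fun t => ∑ α ∈ (P i).support, coeff α (P i) * ∏ l, f l t ^ α l := by
      funext t
      rw [eval_eq']
    rw [h1]
    refine Differentiable.fun_sum fun α _ => (differentiable_const _).mul ?_
    exact Differentiable.fun_finsetProd fun l _ => (hf.hol l).pow _
  have hmem : ∀ G : MvPolynomial (Fin (m + 1)) ℂ, IsForm G → val x G = 0 →
      ∀ t, eval (fun i => u i t) G = 0 := by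
    rintro G ⟨g, hG⟩ hG0 t
    have h1 : val z (bind₁ P G) = 0 := by
      rw [val_map hPb hG, hG0, map_zero, mul_zero]
    have h2 := hf.mem _ ⟨_, hom_bind hP hG⟩ h1 t
    rwa [eval_bind] at h2
  rw [eval_bind] at hRt
  by_cases hnc : ∃ i j a b, u i a * u j b ≠ u j a * u i b
  · obtain ⟨i, j, a, b', hab⟩ := hnc
    obtain ⟨f', hf', hc'⟩ := hred u hu hmem i j a b' hab
    obtain ⟨c, -, hc⟩ := hc' t0 ⟨i0, hPt⟩
    apply hRt
    have h1 : (fun i => eval (fun i => f i t0) (P i)) = fun i => c * f' i t0 := funext hc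
    rw [h1, eval_smul' hR, h f' hf' t0, mul_zero]
  · push Not at hnc
    -- the curve is contracted
    have hlam : ∀ t i, u i t = u i0 t / u i0 t0 * u i t0 := by
      intro t i
      have h1 := hnc i i0 t t0
      have h2 : u i0 t0 ≠ 0 := hPt
      field_simp
      linear_combination h1
    have hcont : ∀ i, Continuous (f i) := fun i => (hf.hol i).continuous
    have hopen : IsOpen {t | f j0 t ≠ 0 ∧ u i0 t ≠ 0} :=
      (isOpen_ne.preimage (hcont j0)).inter (isOpen_ne.preimage (hu i0).continuous)
    obtain ⟨ε, hε, hball⟩ := Metric.isOpen_iff.1 hopen t0 ⟨hft, hPt⟩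
    have hroot : ∀ j, ∀ t ∈ Metric.ball t0 ε, (∑ k : Fin (N j + 1),
        Polynomial.C (eval (fun i => u i t0) (A j k)) * Polynomial.X ^ (k : ℕ)).eval
          (f j t / f j0 t) = 0 := by
      intro j t ht
      obtain ⟨h1, h2⟩ := hball ht
      have h3 := hf.mem _ ⟨_, hHhom j⟩ (hHz j) t
      simp only [H] at h3
      rw [map_sum] at h3
      have hl : u i0 t / u i0 t0 ≠ 0 := div_ne_zero h2 hPt
      have h4 : ∀ k : Fin (N j + 1), eval (fun l => f l t) (bind₁ P (A j k) *
          (X j ^ (k : ℕ) * X j0 ^ (N j - k))) = (u i0 t / u i0 t0) ^ d j * f j0 t ^ N j *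
          (eval (fun i => u i t0) (A j k) * (f j t / f j0 t) ^ (k : ℕ)) := by
        intro k
        rw [map_mul, map_mul, map_pow, map_pow, eval_X, eval_X, eval_bind]
        have h5 : (fun i => eval (fun l => f l t) (P i)) =
            fun i => u i0 t / u i0 t0 * u i t0 := funext fun i => hlam t i
        rw [h5, eval_smul' (hA j k)]
        have h2 : f j0 t ^ N j = f j0 t ^ (N j - k) * f j0 t ^ (k : ℕ) := by
          rw [← pow_add]
          congr 1
          have := k.2
          omega
        rw [h2, div_pow (f j t)]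
        field_simp
      rw [Finset.sum_congr rfl fun k _ => h4 k, ← Finset.mul_sum] at h3
      rw [Polynomial.eval_finsetSum]
      simp only [Polynomial.eval_mul, Polynomial.eval_C, Polynomial.eval_pow, Polynomial.eval_X]
      exact (mul_eq_zero.1 h3).resolve_left (mul_ne_zero (pow_ne_zero _ hl) (pow_ne_zero _ h1))
    have hq0 : ∀ j, (∑ k : Fin (N j + 1),
        Polynomial.C (eval (fun i => u i t0) (A j k)) * Polynomial.X ^ (k : ℕ)) ≠ 0 := by
      intro j h0
      apply hAt j
      rw [eval_bind]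
      have h1 := congrArg (fun p => Polynomial.coeff p (N j)) h0
      simp only [Polynomial.finsetSum_coeff, Polynomial.coeff_C_mul, Polynomial.coeff_X_pow,
        Polynomial.coeff_zero] at h1
      rw [Finset.sum_eq_single (Fin.last (N j))] at h1
      · simpa using h1
      · intro k _ hk
        have : N j ≠ (k : ℕ) := fun h => hk (Fin.ext h.symm)
        rw [if_neg this, mul_zero]
      · simp
    have hconst : ∀ j, ∀ t, f j t = f j t0 / f j0 t0 * f j0 t := by
      intro j
      have hsub : (Set.image (fun t => f j t / f j0 t) (Metric.ball t0 ε)).Subsingleton := by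
        have hfin : (Set.image (fun t => f j t / f j0 t) (Metric.ball t0 ε)).Finite := by
          refine Set.Finite.subset (Polynomial.finite_setOfPred_isRoot (hq0 j)) ?_
          rintro _ ⟨t, ht, rfl⟩
          exact hroot j t ht
        refine hfin.countable.isTotallyDisconnected _ subset_rfl ?_
        refine (convex_ball t0 ε).isPreconnected.image _ ?_
        exact (hcont j).continuousOn.div (hcont j0).continuousOn fun t ht => (hball ht).1
      have h1 : ∀ t ∈ Metric.ball t0 ε, f j t = f j t0 / f j0 t0 * f j0 t := by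
        intro t ht
        have h2 := hsub ⟨t, ht, rfl⟩ ⟨t0, Metric.mem_ball_self hε, rfl⟩
        simp only at h2
        rw [← h2, div_mul_cancel₀ _ (hball ht).1]
      have h3 : f j = fun t => f j t0 / f j0 t0 * f j0 t := by
        refine AnalyticOnNhd.eq_of_eventuallyEq (𝕜 := ℂ) (z₀ := t0)
          (fun t _ => (hf.hol j).analyticAt t)
          (fun t _ => ((hf.hol j0).const_mul _).analyticAt t) ?_
        filter_upwards [Metric.ball_mem_nhds t0 hε] with t ht
        exact h1 t ht
      exact fun t => congrFun h3 t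
    obtain ⟨i, j, a, b', hab⟩ := hf.nonconst
    apply hab
    rw [hconst i a, hconst j b', hconst j a, hconst i b']
    ring

end Pool.Agent.W2helper38.GG
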