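import Pool.Agent.W2helper38.GG.Desc
import Pool.Agent.W2helper38.GG.EllCase
import Pool.Agent.Q95.SF.WeiB

/-!
Maps from elliptic curves to projective varieties.
-/

set_option autoImplicit false
set_option linter.overlappingInstances false

open MvPolynomial Topology

namespace Pool.Agent.W2helper38.GG

open Pool.Agent.W602.GT (val IsForm coords)
open Pool.Agent.Y221.BD (EntireCurve PseudoBrody)

/-- `E` is the function field of an elliptic curve `y ^ 2 = x ^ 3 + a x + b`. -/
def IsEllField (E : Type) [Field E] [Algebra ℂ E] : Prop :=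
  ∃ (a b : ℂ) (x y : E), 4 * a ^ 3 + 27 * b ^ 2 ≠ 0 ∧
    y ^ 2 = x ^ 3 + algebraMap ℂ E a * x + algebraMap ℂ E b ∧
    IntermediateField.adjoin ℂ {x, y} = ⊤ ∧ Algebra.trdeg ℂ E = 1

/-- `(v 0 : ... : v M)` is a nonconstant rational map (so, a nonconstant morphism) from the elliptic
curve with the function field `E` to the projective variety with generic point `x` (the variety of
the forms which vanish at `x`). -/
structure EllMap {M : ℕ} {L : Type} [Field L] [Algebra ℂ L] (x : Fin (M + 1) → L)
    (E : Type) [Field E] [Algebra ℂ E] (v : Fin (M + 1) → E) : Prop where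
  ell : IsEllField E
  mem : ∀ G : MvPolynomial (Fin (M + 1)) ℂ, IsForm G → val x G = 0 → val v G = 0
  nonconst : ∃ i j, v j ≠ 0 ∧ Transcendental ℂ (v i / v j)

/-- The images of the nonconstant morphisms from elliptic curves lie in a proper closed subset (in
the zero set of a form `R` which does not vanish at the generic point). -/
def PseudoElliptic {M : ℕ} {L : Type} [Field L] [Algebra ℂ L] (x : Fin (M + 1) → L) : Prop :=
  ∃ R : MvPolynomial (Fin (M + 1)) ℂ, IsForm R ∧ val x R ≠ 0 ∧
    ∀ (E : Type) [Field E] [Algebra ℂ E] (v : Fin (M + 1) → E), EllMap x E v → val v R = 0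

/-- **Generically finite maps.** If the images of elliptic curves on the variety with the generic
point `x` are not Zariski dense then this holds for all varieties with generically finite maps to
it. -/
theorem elliptic_up {L K : Type} [Field L] [Algebra ℂ L] [Field K] [Algebra ℂ K] [Algebra L K]
    [IsScalarTower ℂ L K] [Algebra.IsAlgebraic L K] {m M : ℕ} {x : Fin (m + 1) → L} (hx0 : x ≠ 0)
    (hx : coords ℂ x = ⊤) {z : Fin (M + 1) → K} (hz0 : z ≠ 0)
    (hz : coords ℂ z = ⊤) (h : PseudoElliptic x) : PseudoElliptic z := by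
  classical
  obtain ⟨i0, hi0⟩ := Function.ne_iff.1 hx0
  obtain ⟨j0, hj0⟩ := Function.ne_iff.1 hz0
  have hi0' : x i0 ≠ 0 := hi0
  have hj0' : z j0 ≠ 0 := hj0
  obtain ⟨D, P, b, hb, hP, hPb, hPi0⟩ := exists_map (K := K) hz hi0'
  choose d N A hA hA0 hAr using fun j => exists_rel (K := K) hx
    (Algebra.IsAlgebraic.isAlgebraic (R := L) (z j / z j0))
  obtain ⟨R, ⟨e, hR⟩, hRx, h⟩ := h
  -- the relations
  let H : Fin (M + 1) → MvPolynomial (Fin (M + 1)) ℂ := fun j =>
    ∑ k : Fin (N j + 1), bind₁ P (A j k) * (X j ^ (k : ℕ) * X j0 ^ (N j - k))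
  have hHhom : ∀ j, (H j).IsHomogeneous (D * d j + N j) := by
    intro j
    refine IsHomogeneous.sum _ _ _ fun k _ => ?_
    refine (hom_bind hP (hA j k)).mul ?_
    have h1 := ((isHomogeneous_X ℂ j).pow (k : ℕ)).mul ((isHomogeneous_X ℂ j0).pow (N j - k))
    have h2 : 1 * (k : ℕ) + 1 * (N j - k) = N j := by
      have := k.2
      omega
    rwa [h2] at h1
  have hHz : ∀ j, val z (H j) = 0 := by
    intro j
    simp only [H]
    rw [val_sum]
    have h1 : ∀ k : Fin (N j + 1), val z (bind₁ P (A j k) * (X j ^ (k : ℕ) * X j0 ^ (N j - k))) =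
        b ^ d j * z j0 ^ N j * (algebraMap L K (val x (A j k)) * (z j / z j0) ^ (k : ℕ)) := by
      intro k
      rw [val_mul, val_mul, val_pow, val_pow, val_X, val_X, val_map hPb (hA j k)]
      have h2 : z j0 ^ N j = z j0 ^ (N j - k) * z j0 ^ (k : ℕ) := by
        rw [← pow_add]
        congr 1
        have := k.2
        omega
      rw [h2, div_pow]
      field_simp
    rw [Finset.sum_congr rfl fun k _ => h1 k, ← Finset.mul_sum, hAr j, mul_zero]
  -- the bad form
  refine ⟨X j0 * P i0 * bind₁ P R * ∏ j, bind₁ P (A j (Fin.last (N j))),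
    ⟨_, (((isHomogeneous_X ℂ j0).mul (hP i0)).mul (hom_bind hP hR)).mul
      (IsHomogeneous.prod _ _ _ fun j _ => hom_bind hP (hA j (Fin.last (N j))))⟩, ?_, ?_⟩
  · rw [val_mul, val_mul, val_mul, val_X, val_prod, val_map hPb hR]
    refine mul_ne_zero (mul_ne_zero (mul_ne_zero hj0' hPi0) (mul_ne_zero (pow_ne_zero _ hb)
      ((map_ne_zero _).2 hRx))) (Finset.prod_ne_zero_iff.2 fun j _ => ?_)
    rw [val_map hPb (hA j _)]
    exact mul_ne_zero (pow_ne_zero _ hb) ((map_ne_zero _).2 (hA0 j))
  intro E _ _ f hf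
  by_contra hcon
  rw [val_mul, val_mul, val_mul, val_prod, val_X] at hcon
  have hcon1 := left_ne_zero_of_mul hcon
  have hAt : ∀ j, val f (bind₁ P (A j (Fin.last (N j)))) ≠ 0 := fun j =>
    Finset.prod_ne_zero_iff.1 (right_ne_zero_of_mul hcon) j (Finset.mem_univ j)
  have hRt : val f (bind₁ P R) ≠ 0 := right_ne_zero_of_mul hcon1
  have hft : f j0 ≠ 0 := left_ne_zero_of_mul (left_ne_zero_of_mul hcon1)
  have hPt : val f (P i0) ≠ 0 := right_ne_zero_of_mul (left_ne_zero_of_mul hcon1)
  let u : Fin (m + 1) → E := fun i => val f (P i)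
  have hmem : ∀ G : MvPolynomial (Fin (m + 1)) ℂ, IsForm G → val x G = 0 → val u G = 0 := by
    rintro G ⟨g, hG⟩ hG0
    have h1 : val z (bind₁ P G) = 0 := by
      rw [val_map hPb hG, hG0, map_zero, mul_zero]
    have h2 := hf.mem _ ⟨_, hom_bind hP hG⟩ h1
    rwa [val_bind] at h2
  rw [val_bind] at hRt
  by_cases hnc : ∃ i, Transcendental ℂ (u i / u i0)
  · obtain ⟨i, hi⟩ := hnc
    exact hRt (h E u ⟨hf.ell, hmem, ⟨i, i0, hPt, hi⟩⟩)
  · push Not at hnc
    have halg : ∀ i, IsAlgebraic ℂ (u i / u i0) := fun i => by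
      have := hnc i
      rwa [Transcendental, not_not] at this
    -- the ratios of the coordinates are constants
    have hcst : ∀ i, ∃ c : ℂ, u i = algebraMap ℂ E c * u i0 := by
      intro i
      have h1 : u i / u i0 ∈ (algebraMap ℂ E).range :=
        minpoly.mem_range_of_degree_eq_one ℂ _ (IsAlgClosed.degree_eq_one_of_irreducible ℂ
          (minpoly.irreducible (halg i).isIntegral))
      obtain ⟨c, hc⟩ := h1
      refine ⟨c, ?_⟩
      rw [hc, div_mul_cancel₀ _ hPt]
    choose c hc using hcst
    have hval : ∀ (G : MvPolynomial (Fin (m + 1)) ℂ) (g : ℕ), G.IsHomogeneous g →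
        val u G = u i0 ^ g * algebraMap ℂ E (eval c G) := by
      intro G g hG
      have h1 : u = fun i => u i0 * algebraMap ℂ E (c i) := funext fun i => by
        rw [hc i, mul_comm]
      rw [h1, val_smul' hG]
      simp only []
      have h2 : u i0 = u i0 * algebraMap ℂ E (c i0) := by
        conv_lhs => rw [hc i0]
        rw [mul_comm]
      rw [← h2]
      congr 1
      unfold val
      have h3 := aeval_algebraMap_apply E c G
      rw [aeval_eq_eval] at h3
      exact h3
    have hal : ∀ j, IsAlgebraic ℂ (f j / f j0) := by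
      intro j
      have h3 := hf.mem _ ⟨_, hHhom j⟩ (hHz j)
      simp only [H] at h3
      rw [val_sum] at h3
      have h4 : ∀ k : Fin (N j + 1), val f (bind₁ P (A j k) *
          (X j ^ (k : ℕ) * X j0 ^ (N j - k))) = u i0 ^ d j * f j0 ^ N j *
          (algebraMap ℂ E (eval c (A j k)) * (f j / f j0) ^ (k : ℕ)) := by
        intro k
        rw [val_mul, val_mul, val_pow, val_pow, val_X, val_X, val_bind]
        have h5 : val (fun i => val f (P i)) (A j k) = u i0 ^ d j * algebraMap ℂ E
          (eval c (A j k)) := hval _ _ (hA j k)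
        rw [h5]
        have h2 : f j0 ^ N j = f j0 ^ (N j - k) * f j0 ^ (k : ℕ) := by
          rw [← pow_add]
          congr 1
          have := k.2
          omega
        rw [h2, div_pow (f j)]
        field_simp
      rw [Finset.sum_congr rfl fun k _ => h4 k, ← Finset.mul_sum] at h3
      have h5 := (mul_eq_zero.1 h3).resolve_left (mul_ne_zero (pow_ne_zero _ hPt)
        (pow_ne_zero _ hft))
      refine ⟨∑ k : Fin (N j + 1), Polynomial.C (eval c (A j k)) * Polynomial.X ^ (k : ℕ), ?_, ?_⟩
      · intro h0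
        apply hAt j
        have h1 := congrArg (fun p => Polynomial.coeff p (N j)) h0
        simp only [Polynomial.finsetSum_coeff, Polynomial.coeff_C_mul, Polynomial.coeff_X_pow,
          Polynomial.coeff_zero] at h1
        rw [Finset.sum_eq_single (Fin.last (N j))] at h1
        · have h6 : eval c (A j (Fin.last (N j))) = 0 := by simpa using h1
          have h7 := hval _ _ (hA j (Fin.last (N j)))
          rw [h6, map_zero, mul_zero] at h7
          rw [val_bind]
          exact h7
        · intro k _ hk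
          have : N j ≠ (k : ℕ) := fun h => hk (Fin.ext h.symm)
          rw [if_neg this, mul_zero]
        · simp
      · rw [map_sum]
        simp only [map_mul, map_pow, Polynomial.aeval_C, Polynomial.aeval_X]
        exact h5
    obtain ⟨i, j, hj, hij⟩ := hf.nonconst
    apply hij
    have h1 : f i / f j = (f i / f j0) / (f j / f j0) := by
      field_simp
    rw [h1, div_eq_mul_inv]
    exact (hal i).mul (hal j).inv

/-- **Entire curves.** The elliptic curves give entire curves. -/
theorem elliptic_of_brody {L : Type} [Field L] [Algebra ℂ L] {m : ℕ} {x : Fin (m + 1) → L}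
    (hred : Reduces x) (h : PseudoBrody x) : PseudoElliptic x := by
  obtain ⟨R, ⟨e, hR⟩, hRx, h⟩ := h
  refine ⟨R, ⟨e, hR⟩, hRx, fun E _ _ v hv => ?_⟩
  obtain ⟨a, b, x', y', -, hxy, hgen, htr⟩ := hv.ell
  obtain ⟨X, Y, Z, hX, hY, hZ, hE, hc⟩ := Pool.Agent.Q95.SF.wei0 a b
  obtain ⟨f, hf, hfG⟩ := W3h.ell_case htr hxy hgen hX hY hZ hE hc v
  have hmem : ∀ G : MvPolynomial (Fin (m + 1)) ℂ, IsForm G → val x G = 0 →
      ∀ t, eval (fun i => f i t) G = 0 := fun G hG hG0 =>
    (hfG _ G hG.choose_spec).2 (hv.mem G hG hG0)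
  by_cases hnc : ∃ i j a b, f i a * f j b ≠ f j a * f i b
  · obtain ⟨i, j, a, b, hab⟩ := hnc
    obtain ⟨g, hg, hgc⟩ := hred f hf hmem i j a b hab
    refine (hfG _ R hR).1 fun t => ?_
    by_cases ht : ∃ k, f k t ≠ 0
    · obtain ⟨c, -, hc⟩ := hgc t ht
      have h1 : (fun i => f i t) = fun i => c * g i t := funext hc
      rw [h1, eval_smul' hR, h g hg t, mul_zero]
    · push Not at ht
      have hane : ∃ k, f k a ≠ 0 := by
        by_contra hcon
        push Not at hcon
        apply hab
        simp only [hcon, zero_mul]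
      have h0 : eval (fun i => f i a) R = 0 := by
        obtain ⟨c, -, hc⟩ := hgc a hane
        have h1 : (fun i => f i a) = fun i => c * g i a := funext hc
        rw [h1, eval_smul' hR, h g hg a, mul_zero]
      have h1 : (fun i => f i t) = fun i => 0 * f i a := funext fun i => by rw [ht i, zero_mul]
      rw [h1, eval_smul' hR, h0, mul_zero]
  · exfalso
    push Not at hnc
    obtain ⟨i, j, hj, hij⟩ := hv.nonconst
    -- a point where the coordinate `j` does not vanish
    obtain ⟨t0, ht0⟩ : ∃ t, f j t ≠ 0 := by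
      by_contra hcon
      push Not at hcon
      apply hj
      have h1 := (hfG 1 (MvPolynomial.X j) (isHomogeneous_X _ _)).1 (fun t => by
        rw [eval_X]
        exact hcon t)
      simpa using h1
    apply hij
    have h1 := (hfG 1 (C (f j t0) * MvPolynomial.X i - C (f i t0) * MvPolynomial.X j) (by
      have h2 : ∀ (c : ℂ) (i : Fin (m + 1)), (C c * MvPolynomial.X i :
          MvPolynomial (Fin (m + 1)) ℂ).IsHomogeneous 1 := fun c i => by
        simpa using (isHomogeneous_C (Fin (m + 1)) c).mul (isHomogeneous_X ℂ i)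
      exact (h2 _ _).sub (h2 _ _))).1 (fun t => by
        simp only [map_sub, map_mul, eval_C, eval_X]
        have := hnc i j t t0
        linear_combination this)
    simp only [map_sub, map_mul, aeval_X, algHom_C] at h1
    have h3 : algebraMap ℂ E (f j t0) ≠ 0 := (map_ne_zero _).2 ht0
    have h4 : v i / v j = algebraMap ℂ E (f i t0 / f j t0) := by
      rw [map_div₀, div_eq_div_iff hj h3]
      linear_combination h1
    rw [h4]
    exact isAlgebraic_algebraMap _

end Pool.Agent.W2helper38.GG
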