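import Mathlib
import Pool.Agent.W602.GT.SpDefs

/-!
Rational functions on projective varieties as ratios of forms.
-/

set_option autoImplicit false

open MvPolynomial

namespace Pool.Agent.W2helper38.GG

open Pool.Agent.W602.GT (val IsForm coords)

variable {K : Type} [Field K] [Algebra ℂ K] {M : ℕ}

theorem val_C (z : Fin (M + 1) → K) (c : ℂ) : val z (C c) = algebraMap ℂ K c := by
  simp [val]

theorem val_mul (z : Fin (M + 1) → K) (P Q : MvPolynomial (Fin (M + 1)) ℂ) :
    val z (P * Q) = val z P * val z Q := by simp [val]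

theorem val_add (z : Fin (M + 1) → K) (P Q : MvPolynomial (Fin (M + 1)) ℂ) :
    val z (P + Q) = val z P + val z Q := by simp [val]

theorem val_X (z : Fin (M + 1) → K) (i : Fin (M + 1)) :
    val z (X i : MvPolynomial (Fin (M + 1)) ℂ) = z i := by simp [val]

theorem val_pow (z : Fin (M + 1) → K) (P : MvPolynomial (Fin (M + 1)) ℂ) (n : ℕ) :
    val z (P ^ n) = val z P ^ n := by simp [val]

theorem val_sum {ι : Type} (s : Finset ι) (z : Fin (M + 1) → K)
    (P : ι → MvPolynomial (Fin (M + 1)) ℂ) : val z (∑ i ∈ s, P i) = ∑ i ∈ s, val z (P i) := by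
  simp [val]

theorem val_prod {ι : Type} (s : Finset ι) (z : Fin (M + 1) → K)
    (P : ι → MvPolynomial (Fin (M + 1)) ℂ) : val z (∏ i ∈ s, P i) = ∏ i ∈ s, val z (P i) := by
  simp [val]

/-- rational functions are ratios of forms -/
theorem exists_ratio {z : Fin (M + 1) → K} {g : K} (hg : g ∈ coords ℂ z) :
    ∃ (d : ℕ) (P Q : MvPolynomial (Fin (M + 1)) ℂ), P.IsHomogeneous d ∧ Q.IsHomogeneous d ∧
      val z Q ≠ 0 ∧ g * val z Q = val z P := by
  unfold coords at hg
  induction hg using IntermediateField.adjoin_induction with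
  | mem g hg =>
    obtain ⟨i, j, hj, rfl⟩ := hg
    refine ⟨1, X i, X j, isHomogeneous_X _ _, isHomogeneous_X _ _, by rwa [val_X], ?_⟩
    rw [val_X, val_X, div_mul_cancel₀ _ hj]
  | algebraMap c =>
    exact ⟨0, C c, 1, isHomogeneous_C _ _, isHomogeneous_one _ _, by simp [val], by
      rw [val_C]
      simp [val]⟩
  | add a b _ _ ha hb =>
    obtain ⟨d, P, Q, hP, hQ, hQ0, h⟩ := ha
    obtain ⟨d', P', Q', hP', hQ', hQ0', h'⟩ := hb
    refine ⟨d + d', P * Q' + Q * P', Q * Q', (hP.mul hQ').add (hQ.mul hP'), hQ.mul hQ', ?_, ?_⟩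
    · rw [val_mul]
      exact mul_ne_zero hQ0 hQ0'
    · rw [val_mul, val_add, val_mul, val_mul, ← h, ← h']
      ring
  | inv a _ ha =>
    obtain ⟨d, P, Q, hP, hQ, hQ0, h⟩ := ha
    by_cases ha0 : a = 0
    · refine ⟨0, 0, 1, isHomogeneous_zero _ _ _, isHomogeneous_one _ _, by simp [val], ?_⟩
      rw [ha0]
      simp [val]
    · refine ⟨d, Q, P, hQ, hP, ?_, ?_⟩
      · rw [← h]
        exact mul_ne_zero ha0 hQ0
      · rw [← h]
        field_simp
  | mul a b _ _ ha hb =>
    obtain ⟨d, P, Q, hP, hQ, hQ0, h⟩ := ha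
    obtain ⟨d', P', Q', hP', hQ', hQ0', h'⟩ := hb
    refine ⟨d + d', P * P', Q * Q', hP.mul hP', hQ.mul hQ', ?_, ?_⟩
    · rw [val_mul]
      exact mul_ne_zero hQ0 hQ0'
    · rw [val_mul, val_mul, ← h, ← h']
      ring

/-- finitely many rational functions are ratios of forms with the same denominator -/
theorem exists_ratios {ι : Type} [Fintype ι] {z : Fin (M + 1) → K} {g : ι → K}
    (hg : ∀ i, g i ∈ coords ℂ z) :
    ∃ (d : ℕ) (P : ι → MvPolynomial (Fin (M + 1)) ℂ) (Q : MvPolynomial (Fin (M + 1)) ℂ),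
      (∀ i, (P i).IsHomogeneous d) ∧ Q.IsHomogeneous d ∧
      val z Q ≠ 0 ∧ ∀ i, g i * val z Q = val z (P i) := by
  classical
  choose d P Q hP hQ hQ0 h using fun i => exists_ratio (hg i)
  refine ⟨∑ i, d i, fun i => P i * ∏ j ∈ Finset.univ.erase i, Q j, ∏ j, Q j, fun i => ?_, ?_, ?_,
    fun i => ?_⟩
  · rw [← Finset.add_sum_erase Finset.univ d (Finset.mem_univ i)]
    exact (hP i).mul (IsHomogeneous.prod _ _ _ fun j _ => hQ j)
  · exact IsHomogeneous.prod _ _ _ fun j _ => hQ j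
  · rw [val_prod]
    exact Finset.prod_ne_zero_iff.2 fun j _ => hQ0 j
  · rw [val_mul, val_prod, val_prod, ← h i, ← Finset.mul_prod_erase Finset.univ _
      (Finset.mem_univ i)]
    ring

theorem aeval_smul' {A : Type} [CommRing A] [Algebra ℂ A] {G : MvPolynomial (Fin (M + 1)) ℂ}
    {d : ℕ} (hG : G.IsHomogeneous d) (c : A) (v : Fin (M + 1) → A) :
    MvPolynomial.aeval (fun i => c * v i) G = c ^ d * MvPolynomial.aeval v G := by
  rw [MvPolynomial.aeval_def, MvPolynomial.aeval_def, MvPolynomial.eval₂_eq,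
    MvPolynomial.eval₂_eq, Finset.mul_sum]
  refine Finset.sum_congr rfl fun m hm => ?_
  have hd : ∑ i ∈ m.support, m i = d := by
    have := hG (MvPolynomial.mem_support_iff.1 hm)
    rwa [Finsupp.weight_apply, Finsupp.sum, Finset.sum_congr rfl (fun i _ => by
      rw [Pi.one_apply, smul_eq_mul, mul_one])] at this
  rw [Finset.prod_congr rfl (fun i _ => mul_pow c (v i) (m i)), Finset.prod_mul_distrib,
    Finset.prod_pow_eq_pow_sum, hd]
  ring

theorem val_smul' {G : MvPolynomial (Fin (M + 1)) ℂ} {d : ℕ} (hG : G.IsHomogeneous d) (c : K)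
    (v : Fin (M + 1) → K) : val (fun i => c * v i) G = c ^ d * val v G :=
  aeval_smul' hG c v

theorem eval_smul' {G : MvPolynomial (Fin (M + 1)) ℂ} {d : ℕ} (hG : G.IsHomogeneous d) (c : ℂ)
    (v : Fin (M + 1) → ℂ) :
    MvPolynomial.eval (fun i => c * v i) G = c ^ d * MvPolynomial.eval v G := by
  have := aeval_smul' hG c v
  rwa [MvPolynomial.aeval_eq_eval, MvPolynomial.aeval_eq_eval] at this

/-- the values of compositions with forms -/
theorem val_bind {m : ℕ} (z : Fin (M + 1) → K) (P : Fin (m + 1) → MvPolynomial (Fin (M + 1)) ℂ)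
    (G : MvPolynomial (Fin (m + 1)) ℂ) :
    val z (bind₁ P G) = val (fun i => val z (P i)) G := by
  unfold val
  rw [aeval_bind₁]

theorem eval_bind {m : ℕ} (w : Fin (M + 1) → ℂ) (P : Fin (m + 1) → MvPolynomial (Fin (M + 1)) ℂ)
    (G : MvPolynomial (Fin (m + 1)) ℂ) :
    eval w (bind₁ P G) = eval (fun i => eval w (P i)) G :=
  MvPolynomial.eval₂Hom_bind₁ _ _ _ _

theorem hom_bind {m D d : ℕ} {P : Fin (m + 1) → MvPolynomial (Fin (M + 1)) ℂ}
    (hP : ∀ i, (P i).IsHomogeneous D) {G : MvPolynomial (Fin (m + 1)) ℂ}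
    (hG : G.IsHomogeneous d) : (bind₁ P G).IsHomogeneous (D * d) :=
  hG.aeval P hP

/-- The pull-back of forms: for a rational map, with the homogeneous coordinates `P i`, from the
variety with the generic point `z` to the variety with the generic point `x`. -/
theorem exists_map {L : Type} [Field L] [Algebra ℂ L] [Algebra L K] [IsScalarTower ℂ L K] {m : ℕ}
    {z : Fin (M + 1) → K} (hz : coords ℂ z = ⊤) {x : Fin (m + 1) → L} {i0 : Fin (m + 1)}
    (hi0 : x i0 ≠ 0) :
    ∃ (D : ℕ) (P : Fin (m + 1) → MvPolynomial (Fin (M + 1)) ℂ) (b : K), b ≠ 0 ∧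
      (∀ i, (P i).IsHomogeneous D) ∧ (∀ i, val z (P i) = b * algebraMap L K (x i)) ∧
      val z (P i0) ≠ 0 := by
  obtain ⟨D, P, Q, hP, hQ, hQ0, h⟩ := exists_ratios (z := z)
    (g := fun i => algebraMap L K (x i / x i0)) (fun i => by rw [hz]; trivial)
  have hi0' : algebraMap L K (x i0) ≠ 0 := (map_ne_zero _).2 hi0
  refine ⟨D, P, val z Q / algebraMap L K (x i0), div_ne_zero hQ0 hi0', hP, fun i => ?_, ?_⟩
  · rw [← h i, map_div₀]
    field_simp
  · rw [← h i0, div_self hi0, map_one, one_mul]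
    exact hQ0

theorem val_map {L : Type} [Field L] [Algebra ℂ L] [Algebra L K] [IsScalarTower ℂ L K] {m : ℕ}
    {z : Fin (M + 1) → K} {x : Fin (m + 1) → L}
    {P : Fin (m + 1) → MvPolynomial (Fin (M + 1)) ℂ} {b : K}
    (hP : ∀ i, val z (P i) = b * algebraMap L K (x i)) {G : MvPolynomial (Fin (m + 1)) ℂ} {d : ℕ}
    (hG : G.IsHomogeneous d) : val z (bind₁ P G) = b ^ d * algebraMap L K (val x G) := by
  rw [val_bind]
  have h1 : (fun i => val z (P i)) = fun i => b * algebraMap L K (x i) := funext hP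
  rw [h1, val_smul' hG]
  congr 1
  exact aeval_algebraMap_apply K x G

end Pool.Agent.W2helper38.GG
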