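import Pool.Agent.W2helper38.GG.Ell

/-!
Varieties with Zariski dense entire curves, or with Zariski dense images of elliptic curves.
-/

set_option autoImplicit false
set_option linter.overlappingInstances false

open MvPolynomial Topology

namespace Pool.Agent.W2helper38.GG

open Pool.Agent.W602.GT (val IsForm coords)
open Pool.Agent.Y221.BD (EntireCurve PseudoBrody)

/-- The projective varieties with the function field `K` are not pseudo-Brody hyperbolic: the
nonconstant entire curves on them are Zariski dense. -/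
def EntireDense (K : Type) [Field K] [Algebra ℂ K] : Prop :=
  ∀ (M : ℕ) (z : Fin (M + 1) → K), z ≠ 0 → coords ℂ z = ⊤ → ¬ PseudoBrody z

/-- The images of the nonconstant morphisms from elliptic curves to the projective varieties with
the function field `K` are Zariski dense. -/
def EllipticDense (K : Type) [Field K] [Algebra ℂ K] : Prop :=
  ∀ (M : ℕ) (z : Fin (M + 1) → K), z ≠ 0 → coords ℂ z = ⊤ → ¬ PseudoElliptic z

/-- generators of a finite extension -/
theorem exists_gen {L K : Type} [Field L] [Algebra ℂ L] [Field K] [Algebra ℂ K] [Algebra L K]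
    [IsScalarTower ℂ L K] [FiniteDimensional L K] {m : ℕ} {x : Fin (m + 1) → L} (hx0 : x ≠ 0)
    (hx : coords ℂ x = ⊤) : ∃ (M : ℕ) (z : Fin (M + 1) → K), z ≠ 0 ∧ coords ℂ z = ⊤ := by
  classical
  obtain ⟨i0, hi0⟩ := Function.ne_iff.1 hx0
  have hi0' : x i0 ≠ 0 := hi0
  let B := Module.finBasis L K
  let w : Fin (m + 1 + Module.finrank L K) → K :=
    Fin.append (fun i => algebraMap L K (x i / x i0)) (fun j => B j)
  let z : Fin (m + 1 + Module.finrank L K + 1) → K := Fin.cons 1 w
  have h0 : z 0 = 1 := rfl
  have hw : ∀ i, w i ∈ coords ℂ z := by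
    intro i
    refine IntermediateField.subset_adjoin _ _ ⟨i.succ, 0, ?_, ?_⟩
    · rw [h0]
      exact one_ne_zero
    · rw [h0, div_one]
      rfl
  have hw1 : ∀ i, algebraMap L K (x i / x i0) ∈ coords ℂ z := by
    intro i
    have := hw (Fin.castAdd _ i)
    simp only [w, Fin.append_left] at this
    exact this
  have hw2 : ∀ j, B j ∈ coords ℂ z := by
    intro j
    have := hw (Fin.natAdd _ j)
    simp only [w, Fin.append_right] at this
    exact this
  have hL : ∀ l : L, algebraMap L K l ∈ coords ℂ z := by
    intro l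
    have h1 : coords ℂ x ≤ (coords ℂ z).comap (IsScalarTower.toAlgHom ℂ L K) := by
      unfold coords
      rw [IntermediateField.adjoin_le_iff]
      rintro _ ⟨i, j, hj, rfl⟩
      change algebraMap L K (x i / x j) ∈ coords ℂ z
      have h2 : x i / x j = (x i / x i0) / (x j / x i0) := by
        field_simp
      rw [h2, map_div₀]
      exact div_mem (hw1 i) (hw1 j)
    rw [hx] at h1
    exact h1 (IntermediateField.mem_top : l ∈ ⊤)
  refine ⟨_, z, fun h => one_ne_zero (α := K) (h0.symm.trans (congrFun h 0)), ?_⟩
  rw [eq_top_iff]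
  intro k _
  rw [← B.sum_repr k]
  refine sum_mem fun j _ => ?_
  rw [Algebra.smul_def]
  exact mul_mem (hL _) (hw2 j)

theorem entire_descends (hred : ∀ (L : Type) [Field L] [Algebra ℂ L] (m : ℕ)
    (x : Fin (m + 1) → L), Reduces x) (K : Type) [Field K] [Algebra ℂ K] (L : Type) [Field L]
    [Algebra ℂ L] [Algebra L K] [IsScalarTower ℂ L K] [FiniteDimensional L K]
    (h : EntireDense K) : EntireDense L := by
  intro m x hx0 hx hB
  obtain ⟨M, z, hz0, hz⟩ := exists_gen (K := K) hx0 hx
  exact h M z hz0 hz (brody_up hx0 hx (hred L m x) hz0 hz hB)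

theorem elliptic_descends (K : Type) [Field K] [Algebra ℂ K] (L : Type) [Field L]
    [Algebra ℂ L] [Algebra L K] [IsScalarTower ℂ L K] [FiniteDimensional L K]
    (h : EllipticDense K) : EllipticDense L := by
  intro m x hx0 hx hB
  obtain ⟨M, z, hz0, hz⟩ := exists_gen (K := K) hx0 hx
  exact h M z hz0 hz (elliptic_up hx0 hx hz0 hz hB)

end Pool.Agent.W2helper38.GG
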