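import Mathlib

/-!
Specialization of a family of images of the multiplicative group.
-/

set_option autoImplicit false

open MvPolynomial

namespace Pool.Agent.W2helper38.GG

/-- points of affine varieties outside of a hypersurface -/
theorem exists_point {R : Type} [CommRing R] [IsDomain R] [Algebra ℂ R] [Algebra.FiniteType ℂ R]
    {c : R} (hc : c ≠ 0) : ∃ ψ : R →ₐ[ℂ] ℂ, ψ c ≠ 0 := by
  let S := Localization.Away c
  have hS : Nontrivial S := by
    have h1 : Submonoid.powers c ≤ nonZeroDivisors R := by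
      rw [Submonoid.powers_le]
      exact mem_nonZeroDivisors_of_ne_zero hc
    have h2 : Function.Injective (algebraMap R S) := IsLocalization.injective S h1
    exact h2.nontrivial
  have hft' : Algebra.FiniteType ℂ S :=
    inferInstanceAs (Algebra.FiniteType ℂ (Localization.Away c))
  obtain ⟨m, hm⟩ := Ideal.exists_maximal S
  let F := S ⧸ m
  let _ : Field F := Ideal.Quotient.field m
  have hfF : Algebra.FiniteType ℂ F :=
    Algebra.FiniteType.of_surjective (Ideal.Quotient.mkₐ ℂ m) Ideal.Quotient.mk_surjective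
  have hfin : Module.Finite ℂ F := finite_of_finite_type_of_isJacobsonRing ℂ F
  have hbij : Function.Bijective (algebraMap ℂ F) :=
    IsAlgClosed.algebraMap_bijective_of_isIntegral
  let θ : ℂ ≃ₐ[ℂ] F := AlgEquiv.ofBijective (Algebra.ofId ℂ F) hbij
  let π : R →ₐ[ℂ] F := (Ideal.Quotient.mkₐ ℂ m).comp (IsScalarTower.toAlgHom ℂ R S)
  refine ⟨(θ.symm : F →ₐ[ℂ] ℂ).comp π, ?_⟩
  have hu : IsUnit (π c) := by
    have h1 : IsUnit (algebraMap R S c) := IsLocalization.Away.algebraMap_isUnit c
    exact h1.map (Ideal.Quotient.mkₐ ℂ m)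
  exact (hu.map (θ.symm : F →ₐ[ℂ] ℂ)).ne_zero

variable {L M : Type} [Field L] [Field M] [Algebra ℂ L] [Algebra ℂ M]

/-- The element is a Laurent polynomial. -/
def IsLaurent (r : RatFunc M) : Prop :=
  ∃ (p : Polynomial M) (k : ℕ), r * RatFunc.X ^ k = algebraMap (Polynomial M) (RatFunc M) p

/-- **Specialization.** -/
theorem exists_torus (φ : L →ₐ[ℂ] RatFunc M) {N : ℕ} {κ : Type} [Finite κ] {x : Fin N → L}
    {g : κ → L} (hx : ∀ i, IsLaurent (φ (x i))) (hg : ∀ l, IsLaurent (φ (g l)))
    {H : MvPolynomial (Fin N) ℂ} (hH : aeval x H ≠ 0)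
    (hnc : ∃ i, ∀ m : M, φ (x i) ≠ algebraMap M (RatFunc M) m) :
    ∃ v : ℂ → Fin N → ℂ, (∀ i, ∃ (k : ℕ) (Q : Polynomial ℂ), ∀ t, t ≠ 0 →
        v t i * t ^ k = Q.eval t) ∧
      (∀ P : MvPolynomial (Fin N) ℂ, aeval x P = 0 → ∀ t, t ≠ 0 → eval (v t) P = 0) ∧
      (∀ (l : κ) (G : MvPolynomial (Fin N) ℂ), aeval x G * g l = 1 → ∀ t, t ≠ 0 →
        eval (v t) G ≠ 0) ∧
      (∃ t, t ≠ 0 ∧ eval (v t) H ≠ 0) ∧ ∃ t, t ≠ 0 ∧ v t ≠ v 1 := by
  classical
  have := Fintype.ofFinite κ
  choose p k hp using hx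
  choose q l hq using hg
  -- the coefficients
  let S : Set M := (⋃ i, ((p i).coeffs : Set M)) ∪ ⋃ j, ((q j).coeffs : Set M)
  have hS : S.Finite := (Set.finite_iUnion fun i => Finset.finite_toSet _).union
    (Set.finite_iUnion fun j => Finset.finite_toSet _)
  let R : Subalgebra ℂ M := Algebra.adjoin ℂ S
  have hRft : Algebra.FiniteType ℂ R := by
    rw [← Subalgebra.fg_iff_finiteType]
    exact Subalgebra.fg_def.2 ⟨S, hS, rfl⟩
  have hcoef : ∀ (r : Polynomial M), (r.coeffs : Set M) ⊆ S →
      ∃ r' : Polynomial R, r'.map (algebraMap R M) = r := by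
    intro r hr
    have h1 : r ∈ Polynomial.lifts (algebraMap R M) := by
      rw [Polynomial.lifts_iff_coeff_lifts]
      intro n
      by_cases h0 : r.coeff n = 0
      · rw [h0]
        exact ⟨0, map_zero _⟩
      · exact ⟨⟨r.coeff n, Algebra.subset_adjoin (hr (Polynomial.coeff_mem_coeffs h0))⟩, rfl⟩
    exact (Polynomial.mem_lifts r).1 h1
  choose p' hp' using fun i => hcoef (p i) (fun a ha =>
    Or.inl (Set.mem_iUnion.2 ⟨i, ha⟩))
  choose q' hq' using fun j => hcoef (q j) (fun a ha =>
    Or.inr (Set.mem_iUnion.2 ⟨j, ha⟩))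
  let X' : (RatFunc M)ˣ := Units.mk0 RatFunc.X RatFunc.X_ne_zero
  let ι : LaurentPolynomial R →+* RatFunc M :=
    LaurentPolynomial.eval₂ ((algebraMap M (RatFunc M)).comp (algebraMap R M)) X'
  have hιL : ∀ r : Polynomial R, ι (Polynomial.toLaurent r) =
      algebraMap (Polynomial M) (RatFunc M) (r.map (algebraMap R M)) := by
    intro r
    simp only [ι]
    rw [LaurentPolynomial.eval₂_toLaurent]
    have h1 : (X' : RatFunc M) = RatFunc.X := rfl
    rw [h1]
    induction r using Polynomial.induction_on' with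
    | add a b ha hb => rw [Polynomial.eval₂_add, ha, hb, Polynomial.map_add, map_add]
    | monomial n a =>
      rw [Polynomial.eval₂_monomial, Polynomial.map_monomial, ← Polynomial.C_mul_X_pow_eq_monomial,
        map_mul, map_pow, RatFunc.algebraMap_X, RatFunc.algebraMap_C]
      rfl
  have hιT : ∀ n : ℤ, ι (LaurentPolynomial.T n) = RatFunc.X ^ n := by
    intro n
    simp only [ι]
    rw [LaurentPolynomial.eval₂_T]
    simp [X']
  have hinj : Function.Injective ι := by
    rw [injective_iff_map_eq_zero]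
    intro f hf
    obtain ⟨n, f', hf'⟩ := LaurentPolynomial.exists_T_pow f
    have h1 : ι (Polynomial.toLaurent f') = 0 := by rw [hf', map_mul, hf, zero_mul]
    rw [hιL, map_eq_zero_iff _ (RatFunc.algebraMap_injective M)] at h1
    have h2 : f' = 0 := by
      rwa [Polynomial.map_eq_zero_iff (Subtype.val_injective)] at h1
    rw [h2, map_zero] at hf'
    have h3 : f * LaurentPolynomial.T n * LaurentPolynomial.T (-n) = 0 := by
      rw [← hf', zero_mul]
    rwa [mul_assoc, ← LaurentPolynomial.T_add, add_neg_cancel, LaurentPolynomial.T_zero,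
      mul_one] at h3
  have hfrac : ∀ (r : RatFunc M) (a : Polynomial M) (a' : Polynomial R) (n : ℕ),
      a'.map (algebraMap R M) = a → r * RatFunc.X ^ n = algebraMap (Polynomial M) (RatFunc M) a →
      ι (Polynomial.toLaurent a' * LaurentPolynomial.T (-n)) = r := by
    intro r a a' n h1 h2
    rw [map_mul, hιL, hιT, h1, ← h2, zpow_neg, zpow_natCast, mul_assoc,
      mul_inv_cancel₀ (pow_ne_zero _ RatFunc.X_ne_zero), mul_one]
  let y : Fin N → LaurentPolynomial R := fun i =>
    Polynomial.toLaurent (p' i) * LaurentPolynomial.T (-(k i : ℤ))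
  let z : κ → LaurentPolynomial R := fun j =>
    Polynomial.toLaurent (q' j) * LaurentPolynomial.T (-(l j : ℤ))
  have hy : ∀ i, ι (y i) = φ (x i) := fun i => hfrac _ _ _ _ (hp' i) (hp i)
  have hz : ∀ j, ι (z j) = φ (g j) := fun j => hfrac _ _ _ _ (hq' j) (hq j)
  let E : MvPolynomial (Fin N) ℂ →+* LaurentPolynomial R :=
    eval₂Hom (LaurentPolynomial.C.comp (algebraMap ℂ R)) y
  have hE : ∀ P, ι (E P) = φ (aeval x P) := by
    intro P
    have h1 : ι.comp E = (φ : L →+* RatFunc M).comp (aeval x : MvPolynomial (Fin N) ℂ →ₐ[ℂ] L) := by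
      apply MvPolynomial.ringHom_ext
      · intro c
        have h2 : E (C c) = LaurentPolynomial.C (algebraMap ℂ R c) := eval₂Hom_C _ _ _
        have h3 : ι (LaurentPolynomial.C (algebraMap ℂ R c)) = algebraMap ℂ (RatFunc M) c := by
          simp only [ι]
          rw [LaurentPolynomial.eval₂_C]
          rfl
        change ι (E (C c)) = φ (aeval x (C c))
        rw [h2, h3, MvPolynomial.aeval_C, AlgHom.commutes]
      · intro i
        change ι (E (X i)) = φ (aeval x (X i))
        rw [aeval_X, ← hy i]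
        congr 1
        exact eval₂Hom_X' _ _ _
    exact RingHom.congr_fun h1 P
  have hE0 : ∀ P, aeval x P = 0 → E P = 0 := by
    intro P hP
    apply hinj
    rw [hE, hP, map_zero, map_zero]
  -- the two conditions
  obtain ⟨n, f', hf'⟩ := LaurentPolynomial.exists_T_pow (E H)
  have hf0 : f' ≠ 0 := by
    rintro rfl
    apply hH
    have h1 : E H = 0 := by
      have h3 : E H * LaurentPolynomial.T n * LaurentPolynomial.T (-n) = 0 := by
        rw [← hf', map_zero, zero_mul]
      rwa [mul_assoc, ← LaurentPolynomial.T_add, add_neg_cancel, LaurentPolynomial.T_zero,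
        mul_one] at h3
    have h2 := hE H
    rw [h1, map_zero] at h2
    exact (map_eq_zero φ).1 h2.symm
  obtain ⟨i0, hi0⟩ := hnc
  obtain ⟨j0, hj0, hc0⟩ : ∃ j, j ≠ k i0 ∧ (p' i0).coeff j ≠ 0 := by
    by_contra hcon
    push Not at hcon
    have h1 : p' i0 = Polynomial.C ((p' i0).coeff (k i0)) * Polynomial.X ^ k i0 := by
      ext j
      rw [Polynomial.coeff_C_mul, Polynomial.coeff_X_pow]
      by_cases hj : j = k i0
      · rw [if_pos hj, mul_one, hj]
      · rw [if_neg hj, mul_zero, hcon j hj]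
    have h2 := hp i0
    rw [← hp' i0, h1, Polynomial.map_mul, Polynomial.map_C, Polynomial.map_pow, Polynomial.map_X,
      map_mul, map_pow, RatFunc.algebraMap_X, RatFunc.algebraMap_C] at h2
    exact hi0 _ (mul_right_cancel₀ (pow_ne_zero _ RatFunc.X_ne_zero) h2)
  obtain ⟨ψ, hψ⟩ := exists_point (R := R) (c := f'.leadingCoeff * (p' i0).coeff j0)
    (mul_ne_zero (Polynomial.leadingCoeff_ne_zero.2 hf0) hc0)
  rw [map_mul] at hψ
  have hψ1 := left_ne_zero_of_mul hψ
  have hψ2 := right_ne_zero_of_mul hψ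
  let ev : ∀ t : ℂ, t ≠ 0 → LaurentPolynomial R →+* ℂ := fun t ht =>
    LaurentPolynomial.eval₂ (ψ : R →+* ℂ) (Units.mk0 t ht)
  have hevL : ∀ (t : ℂ) (ht : t ≠ 0) (r : Polynomial R), ev t ht (Polynomial.toLaurent r) =
      (r.map (ψ : R →+* ℂ)).eval t := by
    intro t ht r
    simp only [ev]
    rw [LaurentPolynomial.eval₂_toLaurent, Polynomial.eval_map]
    rfl
  have hevT : ∀ (t : ℂ) (ht : t ≠ 0) (n : ℤ), ev t ht (LaurentPolynomial.T n) = t ^ n := by
    intro t ht n
    simp only [ev]
    rw [LaurentPolynomial.eval₂_T]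
    simp
  let v : ℂ → Fin N → ℂ := fun t i => ((p' i).map (ψ : R →+* ℂ)).eval t / t ^ k i
  have hv : ∀ (t : ℂ) (ht : t ≠ 0) (i : Fin N), ev t ht (y i) = v t i := by
    intro t ht i
    simp only [y, v]
    rw [map_mul, hevL, hevT, zpow_neg, zpow_natCast, div_eq_mul_inv]
  have hevE : ∀ (t : ℂ) (ht : t ≠ 0) (P : MvPolynomial (Fin N) ℂ), ev t ht (E P) =
      eval (v t) P := by
    intro t ht P
    have h1 : (ev t ht).comp E = eval (v t) := by
      apply MvPolynomial.ringHom_ext
      · intro c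
        have h2 : E (C c) = LaurentPolynomial.C (algebraMap ℂ R c) := eval₂Hom_C _ _ _
        change ev t ht (E (C c)) = _
        rw [h2, eval_C]
        simp only [ev]
        rw [LaurentPolynomial.eval₂_C]
        exact ψ.commutes c
      · intro i
        change ev t ht (E (X i)) = _
        rw [eval_X, ← hv t ht i]
        congr 1
        exact eval₂Hom_X' _ _ _
    exact RingHom.congr_fun h1 P
  have hroot : ∀ r : Polynomial ℂ, r ≠ 0 → ∃ t, t ≠ 0 ∧ r.eval t ≠ 0 := by
    intro r hr
    by_contra hcon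
    push Not at hcon
    have h1 : {t | r.IsRoot t}.Finite := Polynomial.finite_setOfPred_isRoot hr
    have h2 : ({0}ᶜ : Set ℂ) ⊆ {t | r.IsRoot t} := fun t ht => hcon t ht
    exact (Set.finite_singleton (0 : ℂ)).infinite_compl (h1.subset h2)
  refine ⟨v, fun i => ⟨k i, (p' i).map (ψ : R →+* ℂ), fun t ht => ?_⟩, fun P hP t ht => ?_,
    fun j G hG t ht h0 => ?_, ?_, ?_⟩
  · simp only [v]
    rw [div_mul_cancel₀ _ (pow_ne_zero _ ht)]
  · rw [← hevE t ht, hE0 P hP, map_zero]
  · have h1 : E G * z j = 1 := by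
      apply hinj
      rw [map_mul, hE, hz, ← map_mul, hG, map_one, map_one]
    have h2 := congrArg (ev t ht) h1
    rw [map_mul, hevE, h0, zero_mul, map_one] at h2
    exact zero_ne_one h2
  · obtain ⟨t, ht, htr⟩ := hroot (f'.map (ψ : R →+* ℂ)) (fun h0 => hψ1 (by
      have h1 := congrArg (fun r => Polynomial.coeff r f'.natDegree) h0
      simpa using h1))
    refine ⟨t, ht, fun h0 => htr ?_⟩
    rw [← hevL t ht, hf', map_mul, hevE, h0, zero_mul]
  · by_contra hcon
    push Not at hcon
    have h1 : (p' i0).map (ψ : R →+* ℂ) - Polynomial.C (v 1 i0) * Polynomial.X ^ k i0 = 0 := by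
      by_contra hne
      obtain ⟨t, ht, htr⟩ := hroot _ hne
      apply htr
      have h2 := congrFun (hcon t ht) i0
      simp only [Polynomial.eval_sub, Polynomial.eval_mul, Polynomial.eval_C, Polynomial.eval_pow,
        Polynomial.eval_X]
      rw [← h2]
      simp only [v]
      rw [div_mul_cancel₀ _ (pow_ne_zero _ ht), sub_self]
    apply hψ2
    have h2 := congrArg (fun r => Polynomial.coeff r j0) h1
    simp only [Polynomial.coeff_sub, Polynomial.coeff_map, Polynomial.coeff_C_mul,
      Polynomial.coeff_X_pow, if_neg hj0, mul_zero, sub_zero, Polynomial.coeff_zero] at h2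
    exact h2

end Pool.Agent.W2helper38.GG
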