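import Pool.Agent.R882.HO
import Pool.Agent.Y199.NG.Incl
import Pool.Agent.W2helper38.GG.Torus

/-!
Open towers over varieties which are covered by images of the multiplicative group: the affine
images are of logarithmic general type or they are covered by images of the multiplicative group.
-/

set_option autoImplicit false
set_option linter.overlappingInstances false

namespace Pool.Agent.W2helper38.GG

open MvPolynomial FF Pool.Agent.Y199.NN Pool.Agent.Y199.NG Pool.Agent.Y172
open Pool.Agent.H159R3.Exp (Laur)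
open Pool.Agent.W602.GT (LogGeneralType)
open Pool.Agent.R882.HO (OpenTower)

/-- The open variety `U` of dimension `n` with the function field `K` and the boundary `B` is covered
by images of the multiplicative group: there is a dominant rational map from `Y × G_m` to `U`, where
`Y` has the function field `M` and the dimension `n - 1`, such that the regular functions on `U` (the
rational functions which are regular at all prime divisors that are not in the boundary) are
Laurent polynomials in the coordinate of `G_m` over `M`. -/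
def GmCovered (n : ℕ) (K : Type) [Field K] [Algebra ℂ K] (B : Place ℂ K → Prop) : Prop :=
  ∃ (M : Type) (_ : Field M) (_ : Algebra ℂ M) (φ : K →ₐ[ℂ] RatFunc M),
    Algebra.trdeg ℂ M + 1 = n ∧ ∀ f : K, (∀ P : Place ℂ K, ¬ B P → P.Reg f) → IsLaurent (φ f)

theorem gm_descends (n : ℕ) :
    Pool.Agent.R882.HO.Descends n (fun K _ _ B => GmCovered n K B) := by
  intro K _ _ L _ _ _ _ _ B BL hB hK h
  obtain ⟨M, i1, i2, φ, h1, h2⟩ := h
  refine ⟨M, i1, i2, φ.comp (IsScalarTower.toAlgHom ℂ L K), h1, fun f hf =>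
    h2 (algebraMap L K f) fun Q hQ => ?_⟩
  have halg : Algebra.IsAlgebraic L K := Algebra.IsAlgebraic.of_finite L K
  obtain ⟨P, e, hPQ⟩ := exists_below (K := L) Q
  by_cases hf0 : f = 0
  · rw [hf0, map_zero]
    exact Q.reg_zero
  have hf1 : algebraMap L K f ≠ 0 := (map_ne_zero _).2 hf0
  rw [Q.reg_iff hf1, hPQ.2]
  have h3 : 0 ≤ P.ord f := (P.reg_iff hf0).1 (hf P fun h => hQ ((hB P Q e hPQ).1 h))
  exact mul_nonneg (by positivity) h3

variable {n N : ℕ} {κ : Type} [Finite κ] {L : Type} [Field L] [Algebra ℂ L]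
  {G : κ → MvPolynomial (Fin N) ℂ} {x : Fin N → L}

theorem nonconstant {M : Type} [Field M] [Algebra ℂ M] (φ : L →ₐ[ℂ] RatFunc M)
    (hM : Algebra.trdeg ℂ M + 1 = n) (hL : Algebra.trdeg ℂ L = n)
    (hgen : IntermediateField.adjoin ℂ (Set.range x) = ⊤) :
    ∃ i, ∀ m : M, φ (x i) ≠ algebraMap M (RatFunc M) m := by
  by_contra hcon
  push Not at hcon
  let j : M →ₐ[ℂ] RatFunc M := IsScalarTower.toAlgHom ℂ M (RatFunc M)
  have h1 : ∀ l : L, φ l ∈ j.fieldRange := by
    intro l
    have h2 : IntermediateField.adjoin ℂ (Set.range x) ≤ j.fieldRange.comap φ := by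
      rw [IntermediateField.adjoin_le_iff]
      rintro _ ⟨i, rfl⟩
      obtain ⟨m, hm⟩ := hcon i
      exact ⟨m, hm.symm⟩
    rw [hgen] at h2
    exact h2 (IntermediateField.mem_top : l ∈ ⊤)
  let e : M ≃ₐ[ℂ] j.fieldRange := AlgEquiv.ofInjectiveField j
  let ψ : L →ₐ[ℂ] j.fieldRange := φ.codRestrict j.fieldRange.toSubalgebra h1
  let θ : L →ₐ[ℂ] M := (e.symm : j.fieldRange →ₐ[ℂ] M).comp ψ
  have h3 := trdeg_le_of_injective θ θ.injective
  rw [hL] at h3
  have h4 : Algebra.trdeg ℂ M < (n : Cardinal) := by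
    rw [← hM]
    have h5 : Algebra.trdeg ℂ M < Cardinal.aleph0 := by
      have h6 : Algebra.trdeg ℂ M ≤ (n : Cardinal) := by
        rw [← hM]
        exact self_le_add_right _ _
      exact h6.trans_lt (Cardinal.natCast_lt_aleph0)
    obtain ⟨k, hk⟩ := Cardinal.lt_aleph0.1 h5
    rw [hk]
    exact_mod_cast Nat.lt_succ_self k
  exact absurd h3 (not_le.2 h4)

/-- **Affine varieties covered by images of the multiplicative group.** -/
theorem torus_dense (hL : Algebra.trdeg ℂ L = n)
    (hgen : IntermediateField.adjoin ℂ (Set.range x) = ⊤) (hG : ∀ l, aeval x (G l) ≠ 0)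
    (h : GmCovered n L (Boundary G x)) : Zcl (Pts G x) (TorusPoints (Pts G x)) = Pts G x := by
  classical
  obtain ⟨M, _, _, φ, hM, hφ⟩ := h
  have hnc := nonconstant φ hM hL hgen
  have hx : ∀ i, IsLaurent (φ (x i)) := by
    intro i
    refine hφ (x i) fun P hP => ?_
    by_contra hcon
    exact hP (Or.inl ⟨i, hcon⟩)
  have hg : ∀ l, IsLaurent (φ (aeval x (G l))⁻¹) := by
    intro l
    refine hφ _ fun P hP => ?_
    rw [P.reg_iff (inv_ne_zero (hG l)), P.ord_inv]
    by_contra hcon
    exact hP (Or.inr ⟨l, by omega⟩)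
  apply Set.Subset.antisymm
  · exact fun b hb => hb.1
  intro b hb
  refine ⟨hb, fun P hP => ?_⟩
  by_contra hb0
  have hP0 : aeval x P ≠ 0 := fun h0 => hb0 (hb.1 P h0)
  obtain ⟨v, hv1, hv2, hv3, ⟨t, ht, htP⟩, hv5⟩ := exists_torus φ hx hg hP0 hnc
  have hmem : ∀ t, t ≠ 0 → v t ∈ Pts G x := fun t ht =>
    ⟨fun Q hQ => hv2 Q hQ t ht, fun l => hv3 l (G l) (mul_inv_cancel₀ (hG l)) t ht⟩
  exact htP (hP (v t) ⟨v, hv1, hmem, hv5, t, ht, rfl⟩)

theorem zcl_mono' {X S T : Set (Fin N → ℂ)} (h : S ⊆ T) (hS : Zcl X S = X) : Zcl X T = X := by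
  apply Set.Subset.antisymm
  · exact fun b hb => hb.1
  · intro b hb
    rw [← hS] at hb
    exact ⟨hb.1, fun P hP => hb.2 P fun a ha => hP a (h ha)⟩

/-- **Affine images of open towers.** -/
theorem open_special (hn : 1 ≤ n) {K : Type} [Field K] [Algebra ℂ K]
    (hK : Algebra.trdeg ℂ K = (n : ℕ)) {B : Place ℂ K → Prop} [Algebra L K]
    [IsScalarTower ℂ L K] [FiniteDimensional L K]
    (hgen : IntermediateField.adjoin ℂ (Set.range x) = ⊤) (hG : ∀ l, aeval x (G l) ≠ 0)
    (hB : ∀ (P : Place ℂ L) (Q : Place ℂ K) (e : ℕ), Over Q P e → (Boundary G x P ↔ B Q))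
    (h : OpenTower n (fun E _ _ BE => GmCovered n E BE) K B (2 * Module.finrank L K)) :
    LogGeneralType ℂ L n (Boundary G x) ∨
    (Zcl (Pts G x) (NonGeneralPoints G x) = Pts G x ∧
      Zcl (Pts G x) (PuncturedPoints (Pts G x)) = Pts G x ∧
      Zcl (Pts G x) (EntirePoints (Pts G x)) = Pts G x ∧
      Zcl (Pts G x) (TorusPoints (Pts G x)) = Pts G x) := by
  have hL : Algebra.trdeg ℂ L = (n : ℕ) := Pool.Agent.Y184.NT.trdeg_below (K := K) hK
  by_cases hg : LogGeneralType ℂ L n (Boundary G x)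
  · exact Or.inl hg
  · right
    have h1 : GmCovered n L (Boundary G x) :=
      (Pool.Agent.R882.HO.tower_aux hn (gm_descends n) h hK L _ hB).2 rfl hg
    have h2 := torus_dense hL hgen hG h1
    exact ⟨zcl_mono' (torus_sub_nonGeneral G x) h2, zcl_mono' (torus_sub_punctured _) h2,
      zcl_mono' (torus_sub_entire _) h2, h2⟩

end Pool.Agent.W2helper38.GG
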